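import Pool.Agent.N410.CutDefs

/-!
# Certificates for monotonic sum-decompositions on eight elements
-/

set_option autoImplicit false

namespace Pool.Agent.N410.Cut

open Finset

/-- The subset of `Fin 8` with code `m`. -/
def dec (m : ℕ) : Finset (Fin 8) := univ.filter fun i => m.testBit i.val

/-- The code of a subset of `Fin 8`. -/
def code (X : Finset (Fin 8)) : ℕ := ∑ i ∈ X, 2 ^ i.val

theorem mem_dec (m : ℕ) (i : Fin 8) : i ∈ dec m ↔ m.testBit i.val = true := by
  simp [dec]

theorem dec_and (m k : ℕ) : dec m ∩ dec k = dec (m &&& k) := by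
  ext i; simp [mem_dec]

theorem dec_or (m k : ℕ) : dec m ∪ dec k = dec (m ||| k) := by
  ext i; simp [mem_dec]

theorem code_dec : ∀ m < 256, code (dec m) = m := by decide +kernel

theorem dec_surj (X : Finset (Fin 8)) : ∃ m < 256, dec m = X := by
  have hinj : Function.Injective (fun m : Fin 256 => dec m.val) := by
    intro a b hab
    have h1 := code_dec a.val a.isLt
    have h2 := code_dec b.val b.isLt
    simp only at hab
    rw [hab, h2] at h1
    exact Fin.ext h1.symm
  have hb : Function.Bijective (fun m : Fin 256 => dec m.val) := by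
    rw [Fintype.bijective_iff_injective_and_card]
    exact ⟨hinj, by simp⟩
  obtain ⟨m, hm⟩ := hb.2 X
  exact ⟨m.val, m.isLt, hm⟩

/-- Table lookup: entry `m` of the table coded by `T`, with entries of 12 bits. -/
def look (T m : ℕ) : ℕ := (T >>> (12 * m)) % 4096

/-- The conditions for a decomposition `s d = F + (s d - F)` of the table `D`. -/
def okPrimal (s D F : ℕ) : Bool :=
  (List.range 256).all fun m => (List.range 256).all fun k =>
    let a := m &&& k
    let o := m ||| k
    let fm := look F m
    let fk := look F k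
    let fa := look F a
    let fo := look F o
    let dm := s * look D m
    let dk := s * look D k
    let da := s * look D a
    let d2 := s * look D o
    Nat.ble (fa + fo) (fm + fk) && Nat.ble (da + d2 + fm + fk) (dm + dk + fa + fo) &&
      Nat.ble fa fm && Nat.ble (dm + fa) (da + fm)

theorem okPrimal_spec {s D F : ℕ} (h : okPrimal s D F = true) (m k : ℕ) (hm : m < 256)
    (hk : k < 256) :
    look F (m &&& k) + look F (m ||| k) ≤ look F m + look F k ∧
    s * look D (m &&& k) + s * look D (m ||| k) + look F m + look F k ≤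
      s * look D m + s * look D k + look F (m &&& k) + look F (m ||| k) ∧
    look F (m &&& k) ≤ look F m ∧
    s * look D m + look F (m &&& k) ≤ s * look D (m &&& k) + look F m := by
  unfold okPrimal at h
  rw [List.all_eq_true] at h
  have h1 := h m (List.mem_range.2 hm)
  rw [List.all_eq_true] at h1
  have h2 := h1 k (List.mem_range.2 hk)
  simp only [Bool.and_eq_true, Nat.ble_eq] at h2
  tauto

/-- A table decomposition gives a monotonic sum-decomposition. -/
theorem mem_values {s D F : ℕ} (hs : 0 < s) (φ : Finset (Fin 8) → ℝ)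
    (hφ : ∀ m < 256, φ (dec m) = (look D m : ℝ)) (h0 : look D 0 = 0) (h0' : look F 0 = 0)
    (h : okPrimal s D F = true) :
    (look F 255 : ℝ) / s ∈ decompositionValues φ := by
  have hs' : (0 : ℝ) < s := by exact_mod_cast hs
  have key : ∀ m < 256, ∀ k < 256,
      ((look F (m &&& k) : ℝ) + look F (m ||| k) ≤ look F m + look F k) ∧
      ((s : ℝ) * look D (m &&& k) + s * look D (m ||| k) + look F m + look F k ≤
        s * look D m + s * look D k + look F (m &&& k) + look F (m ||| k)) ∧
      ((look F (m &&& k) : ℝ) ≤ look F m) ∧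
      ((s : ℝ) * look D m + look F (m &&& k) ≤ s * look D (m &&& k) + look F m) := by
    intro m hm k hk
    obtain ⟨h1, h2, h3, h4⟩ := okPrimal_spec h m k hm hk
    exact ⟨by exact_mod_cast h1, by exact_mod_cast h2, by exact_mod_cast h3, by exact_mod_cast h4⟩
  have hlt : ∀ m < 256, ∀ k < 256, m ||| k < 256 ∧ m &&& k < 256 := by
    intro m hm k hk
    refine ⟨Nat.or_lt_two_pow (n := 8) hm hk, Nat.and_lt_two_pow (n := 8) m hk⟩
  let f : Finset (Fin 8) → ℝ := fun X => (look F (code X) : ℝ) / s
  have hf : ∀ m < 256, f (dec m) = (look F m : ℝ) / s := by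
    intro m hm; simp only [f]; rw [code_dec m hm]
  have hsub : ∀ m < 256, ∀ k < 256, dec m ⊆ dec k → k &&& m = m := by
    intro m hm k hk hsub
    have h1 : dec (k &&& m) = dec m := by rw [← dec_and]; exact inter_eq_right.2 hsub
    exact (code_dec _ (hlt k hk m hm).2).symm.trans ((congrArg code h1).trans (code_dec m hm))
  refine ⟨f, fun X => φ X - f X, ⟨fun X => by ring, ?_, ?_, ?_, ?_, ?_, ?_⟩, ?_⟩
  · intro X Y hXY
    obtain ⟨m, hm, rfl⟩ := dec_surj X
    obtain ⟨k, hk, rfl⟩ := dec_surj Y
    have h1 := hsub m hm k hk hXY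
    have h2 := (key k hk m hm).2.2.1
    rw [h1] at h2
    rw [hf m hm, hf k hk]
    exact div_le_div_of_nonneg_right h2 hs'.le
  · intro X Y
    obtain ⟨m, hm, rfl⟩ := dec_surj X
    obtain ⟨k, hk, rfl⟩ := dec_surj Y
    have h2 := (key m hm k hk).1
    rw [dec_and, dec_or, hf m hm, hf k hk, hf _ (hlt m hm k hk).1, hf _ (hlt m hm k hk).2,
      ← add_div, ← add_div]
    exact div_le_div_of_nonneg_right h2 hs'.le
  · intro X Y hXY
    obtain ⟨m, hm, rfl⟩ := dec_surj X
    obtain ⟨k, hk, rfl⟩ := dec_surj Y
    have h1 := hsub m hm k hk hXY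
    have h2 := (key k hk m hm).2.2.2
    rw [h1] at h2
    simp only
    rw [hf m hm, hf k hk, hφ m hm, hφ k hk]
    have h3 : (look D k : ℝ) + look F m / s ≤ look D m + look F k / s := by
      have h4 : (look D k : ℝ) + look F m / s = (s * look D k + look F m) / s := by
        field_simp
      have h5 : (look D m : ℝ) + look F k / s = (s * look D m + look F k) / s := by
        field_simp
      rw [h4, h5]
      exact div_le_div_of_nonneg_right h2 hs'.le
    linarith
  · intro X Y
    obtain ⟨m, hm, rfl⟩ := dec_surj X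
    obtain ⟨k, hk, rfl⟩ := dec_surj Y
    have h2 := (key m hm k hk).2.1
    simp only
    rw [dec_and, dec_or, hf m hm, hf k hk, hf _ (hlt m hm k hk).1, hf _ (hlt m hm k hk).2,
      hφ m hm, hφ k hk, hφ _ (hlt m hm k hk).1, hφ _ (hlt m hm k hk).2]
    have h3 : (look D (m &&& k) : ℝ) + look D (m ||| k) + look F m / s + look F k / s ≤
        look D m + look D k + look F (m &&& k) / s + look F (m ||| k) / s := by
      have h4 : (look D (m &&& k) : ℝ) + look D (m ||| k) + look F m / s + look F k / s =
          (s * look D (m &&& k) + s * look D (m ||| k) + look F m + look F k) / s := by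
        field_simp
      have h5 : (look D m : ℝ) + look D k + look F (m &&& k) / s + look F (m ||| k) / s =
          (s * look D m + s * look D k + look F (m &&& k) + look F (m ||| k)) / s := by
        field_simp
      rw [h4, h5]
      exact div_le_div_of_nonneg_right h2 hs'.le
    linarith
  · have : (∅ : Finset (Fin 8)) = dec 0 := by decide
    rw [this, hf 0 (by norm_num), h0']; simp
  · have : (∅ : Finset (Fin 8)) = dec 0 := by decide
    simp only
    rw [this, hf 0 (by norm_num), hφ 0 (by norm_num), h0, h0']; simp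
  · have : (univ : Finset (Fin 8)) = dec 255 := by decide
    rw [this, hf 255 (by norm_num)]

/-- The coefficient of `f i` in `∑ m (f P + f Q - f (P ∩ Q) - f (P ∪ Q))`. -/
def net (L : List (ℕ × ℕ × ℕ)) (i : ℕ) : ℤ :=
  match L with
  | [] => 0
  | (m, P, Q) :: L => net L i + (m : ℤ) * ((if P = i then 1 else 0) + (if Q = i then 1 else 0) -
      (if P &&& Q = i then 1 else 0) - (if P ||| Q = i then 1 else 0))

/-- the sum `∑ m (f P + f Q - f (P ∩ Q) - f (P ∪ Q))` -/
def tot (L : List (ℕ × ℕ × ℕ)) (f : ℕ → ℝ) : ℝ :=
  match L with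
  | [] => 0
  | (m, P, Q) :: L => tot L f + (m : ℝ) * (f P + f Q - f (P &&& Q) - f (P ||| Q))

/-- all codes are less than 256 -/
def small (L : List (ℕ × ℕ × ℕ)) : Bool := L.all fun x => Nat.blt x.2.1 256 && Nat.blt x.2.2 256

theorem tot_eq (L : List (ℕ × ℕ × ℕ)) (f : ℕ → ℝ) (h : small L = true) :
    tot L f = ∑ i ∈ range 256, (net L i : ℝ) * f i := by
  induction L with
  | nil => simp [tot, net]
  | cons x L ih =>
    obtain ⟨m, P, Q⟩ := x
    simp only [small, List.all_cons, Bool.and_eq_true, Nat.blt_eq] at h
    obtain ⟨⟨hP, hQ⟩, hL⟩ := h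
    have ih' := ih hL
    have hand : P &&& Q < 256 := Nat.and_lt_two_pow (n := 8) P hQ
    have hor : P ||| Q < 256 := Nat.or_lt_two_pow (n := 8) hP hQ
    have hone : ∀ a < 256, ∑ i ∈ range 256, (if a = i then (1 : ℝ) else 0) * f i = f a := by
      intro a ha
      simp only [ite_mul, one_mul, zero_mul]
      rw [Finset.sum_ite_eq]
      simp [ha]
    simp only [tot, net, ih']
    rw [← hone P hP, ← hone Q hQ, ← hone _ hand, ← hone _ hor, ← sum_add_distrib,
      ← sum_sub_distrib, ← sum_sub_distrib, mul_sum, ← sum_add_distrib]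
    refine sum_congr rfl fun i _ => ?_
    push_cast
    ring

theorem tot_nonneg (L : List (ℕ × ℕ × ℕ)) (f : ℕ → ℝ) (hL : small L = true)
    (h : ∀ P < 256, ∀ Q < 256, 0 ≤ f P + f Q - f (P &&& Q) - f (P ||| Q)) : 0 ≤ tot L f := by
  induction L with
  | nil => simp [tot]
  | cons x L ih =>
    obtain ⟨m, P, Q⟩ := x
    simp only [small, List.all_cons, Bool.and_eq_true, Nat.blt_eq] at hL
    obtain ⟨⟨hP, hQ⟩, hL⟩ := hL
    simp only [tot]
    have h1 := ih hL
    have h2 := h P hP Q hQ
    positivity

/-- the integer version of `tot` -/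
def totZ (L : List (ℕ × ℕ × ℕ)) (D : ℕ) : ℤ :=
  match L with
  | [] => 0
  | (m, P, Q) :: L => totZ L D +
      (m : ℤ) * (look D P + look D Q - look D (P &&& Q) - look D (P ||| Q))

theorem totZ_eq (L : List (ℕ × ℕ × ℕ)) (D : ℕ) :
    tot L (fun i => (look D i : ℝ)) = (totZ L D : ℝ) := by
  induction L with
  | nil => simp [tot, totZ]
  | cons x L ih =>
    obtain ⟨m, P, Q⟩ := x
    simp only [tot, totZ, ih]
    push_cast
    ring

theorem tot_sub (L : List (ℕ × ℕ × ℕ)) (f g : ℕ → ℝ) :
    tot L (fun i => f i - g i) = tot L f - tot L g := by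
  induction L with
  | nil => simp [tot]
  | cons x L ih =>
    obtain ⟨m, P, Q⟩ := x
    simp only [tot, ih]
    ring

/-- The weight of `f i` in `h ∑ f {v} + h ∑ (f V - f (V - v))`. -/
def ends (h i : ℕ) : ℤ :=
  (h : ℤ) * ((if i = 1 ∨ i = 2 ∨ i = 4 ∨ i = 8 ∨ i = 16 ∨ i = 32 ∨ i = 64 ∨ i = 128 then 1 else 0) -
    (if i = 254 ∨ i = 253 ∨ i = 251 ∨ i = 247 ∨ i = 239 ∨ i = 223 ∨ i = 191 ∨ i = 127
      then 1 else 0) + (if i = 255 then 8 else 0))

/-- The identity behind a dual certificate. -/
def okDual (N h : ℕ) (C E : List (ℕ × ℕ × ℕ)) : Bool :=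
  (List.range 256).all fun i => i == 0 ||
    ((if i = 255 then (N : ℤ) else 0) == ends h i + net C i - net E i)

/-- Lower bound for every monotonic sum-decomposition from a dual certificate. -/
theorem lower {N h D : ℕ} {C E : List (ℕ × ℕ × ℕ)} (φ : Finset (Fin 8) → ℝ)
    (hφ : ∀ m < 256, φ (dec m) = (look D m : ℝ))
    (hC : small C = true) (hE : small E = true) (hd : okDual N h C E = true)
    (t : ℝ) (ht : t ∈ decompositionValues φ) :
    (h : ℝ) * (look D 1 + look D 2 + look D 4 + look D 8 + look D 16 + look D 32 + look D 64 +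
      look D 128) - (totZ E D : ℝ) ≤ N * t := by
  obtain ⟨φ₁, φ₂, ⟨h1, h2, h3, h4, h5, h6, h7⟩, rfl⟩ := ht
  let f : ℕ → ℝ := fun m => φ₁ (dec m)
  let g : ℕ → ℝ := fun m => φ₂ (dec m)
  have hfg : ∀ m < 256, g m = look D m - f m := by
    intro m hm
    have := h1 (dec m)
    rw [hφ m hm] at this
    simp only [f, g]
    linarith
  have hfC : 0 ≤ tot C f := by
    apply tot_nonneg C f hC
    intro P _ Q _
    have := h3 (dec P) (dec Q)
    rw [dec_and, dec_or] at this
    simp only [f]; linarith
  have hgE : 0 ≤ tot E g := by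
    apply tot_nonneg E g hE
    intro P _ Q _
    have := h5 (dec P) (dec Q)
    rw [dec_and, dec_or] at this
    simp only [g]; linarith
  have hgE' : tot E g = (totZ E D : ℝ) - tot E f := by
    have e1 : tot E g = tot E (fun i => (look D i : ℝ) - f i) := by
      rw [tot_eq E g hE, tot_eq E _ hE]
      refine sum_congr rfl fun i hi => ?_
      rw [hfg i (mem_range.1 hi)]
    rw [e1, tot_sub, totZ_eq]
  have f0 : f 0 = 0 := by
    have : dec 0 = (∅ : Finset (Fin 8)) := by decide
    simp only [f, this, h6]
  have g0 : g 0 = 0 := by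
    have : dec 0 = (∅ : Finset (Fin 8)) := by decide
    simp only [g, this, h7]
  have huniv : φ₁ univ = f 255 := by
    have : dec 255 = (univ : Finset (Fin 8)) := by decide
    simp only [f, this]
  -- values at single elements
  have hone : ∀ m < 256, (look D m : ℝ) ≤ f m := by
    intro m hm
    have h8 := h4 ∅ (dec m) (empty_subset _)
    rw [h7] at h8
    have h9 := hfg m hm
    simp only [g] at h9
    linarith
  have htop : ∀ m < 256, f m ≤ f 255 := by
    intro m hm
    have : dec 255 = (univ : Finset (Fin 8)) := by decide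
    simp only [f, this]
    exact h2 _ _ (subset_univ _)
  -- the identity
  have hid : (N : ℝ) * f 255 = (h : ℝ) * (f 1 + f 2 + f 4 + f 8 + f 16 + f 32 + f 64 + f 128) +
      h * (8 * f 255 - f 254 - f 253 - f 251 - f 247 - f 239 - f 223 - f 191 - f 127) +
      tot C f - tot E f := by
    have e1 : ∑ i ∈ range 256, ((if i = 255 then (N : ℤ) else 0 : ℤ) : ℝ) * f i = N * f 255 := by
      rw [sum_eq_single 255]
      · simp
      · intro b _ hb; simp [hb]
      · intro hb; simp at hb
    have e2 : ∑ i ∈ range 256, ((if i = 255 then (N : ℤ) else 0 : ℤ) : ℝ) * f i =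
        ∑ i ∈ range 256, ((ends h i + net C i - net E i : ℤ) : ℝ) * f i := by
      refine sum_congr rfl fun i hi => ?_
      by_cases hi0 : i = 0
      · subst hi0; rw [f0]; simp
      · unfold okDual at hd
        rw [List.all_eq_true] at hd
        have h8 := hd i (List.mem_range.2 (mem_range.1 hi))
        simp only [Bool.or_eq_true, beq_iff_eq, hi0, false_or] at h8
        rw [h8]
    have hsingle : ∀ a < 256, ∑ i ∈ range 256, (if i = a then (1 : ℝ) else 0) * f i = f a := by
      intro a ha
      simp only [ite_mul, one_mul, zero_mul]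
      rw [Finset.sum_ite_eq']
      simp [ha]
    have e3 : ∑ i ∈ range 256, ((ends h i : ℤ) : ℝ) * f i =
        (h : ℝ) * (f 1 + f 2 + f 4 + f 8 + f 16 + f 32 + f 64 + f 128) +
        h * (8 * f 255 - f 254 - f 253 - f 251 - f 247 - f 239 - f 223 - f 191 - f 127) := by
      rw [← hsingle 1 (by norm_num), ← hsingle 2 (by norm_num), ← hsingle 4 (by norm_num),
        ← hsingle 8 (by norm_num), ← hsingle 16 (by norm_num), ← hsingle 32 (by norm_num),
        ← hsingle 64 (by norm_num), ← hsingle 128 (by norm_num), ← hsingle 255 (by norm_num),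
        ← hsingle 254 (by norm_num), ← hsingle 253 (by norm_num), ← hsingle 251 (by norm_num),
        ← hsingle 247 (by norm_num), ← hsingle 239 (by norm_num), ← hsingle 223 (by norm_num),
        ← hsingle 191 (by norm_num), ← hsingle 127 (by norm_num)]
      rw [← sum_add_distrib, ← sum_add_distrib, ← sum_add_distrib, ← sum_add_distrib,
        ← sum_add_distrib, ← sum_add_distrib, ← sum_add_distrib, mul_sum (a := (8 : ℝ)),
        ← sum_sub_distrib, ← sum_sub_distrib, ← sum_sub_distrib, ← sum_sub_distrib,
        ← sum_sub_distrib, ← sum_sub_distrib, ← sum_sub_distrib, ← sum_sub_distrib, mul_sum,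
        mul_sum, ← sum_add_distrib]
      refine sum_congr rfl fun i _ => ?_
      unfold ends
      push_cast
      have h9 : ∀ p : Prop, ∀ _ : Decidable p, (if p then (1 : ℝ) else 0) =
        if p then (1 : ℝ) else 0 := fun _ _ => rfl
      by_cases c1 : i = 1
      · subst c1; norm_num
      by_cases c2 : i = 2
      · subst c2; norm_num
      by_cases c4 : i = 4
      · subst c4; norm_num
      by_cases c8 : i = 8
      · subst c8; norm_num
      by_cases c16 : i = 16
      · subst c16; norm_num
      by_cases c32 : i = 32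
      · subst c32; norm_num
      by_cases c64 : i = 64
      · subst c64; norm_num
      by_cases c128 : i = 128
      · subst c128; norm_num
      by_cases c254 : i = 254
      · subst c254; norm_num
      by_cases c253 : i = 253
      · subst c253; norm_num
      by_cases c251 : i = 251
      · subst c251; norm_num
      by_cases c247 : i = 247
      · subst c247; norm_num
      by_cases c239 : i = 239
      · subst c239; norm_num
      by_cases c223 : i = 223
      · subst c223; norm_num
      by_cases c191 : i = 191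
      · subst c191; norm_num
      by_cases c127 : i = 127
      · subst c127; norm_num
      by_cases c255 : i = 255
      · subst c255; norm_num; ring
      simp only [c1, c2, c4, c8, c16, c32, c64, c128, c254, c253, c251, c247, c239, c223, c191,
        c127, c255, or_self, if_false]
      ring
    rw [← e1, e2, tot_eq C f hC, tot_eq E f hE, ← e3, ← sum_add_distrib, ← sum_sub_distrib]
    refine sum_congr rfl fun i _ => ?_
    push_cast
    ring
  rw [huniv, hid]
  have hh : (0 : ℝ) ≤ h := Nat.cast_nonneg h
  have t1 := hone 1 (by norm_num)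
  have t2 := hone 2 (by norm_num)
  have t3 := hone 4 (by norm_num)
  have t4 := hone 8 (by norm_num)
  have t5 := hone 16 (by norm_num)
  have t6 := hone 32 (by norm_num)
  have t7 := hone 64 (by norm_num)
  have t8 := hone 128 (by norm_num)
  have s1 := htop 254 (by norm_num)
  have s2 := htop 253 (by norm_num)
  have s3 := htop 251 (by norm_num)
  have s4 := htop 247 (by norm_num)
  have s5 := htop 239 (by norm_num)
  have s6 := htop 223 (by norm_num)
  have s7 := htop 191 (by norm_num)
  have s8 := htop 127 (by norm_num)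
  have u1 : (h : ℝ) * (look D 1 + look D 2 + look D 4 + look D 8 + look D 16 + look D 32 +
      look D 64 + look D 128) ≤ h * (f 1 + f 2 + f 4 + f 8 + f 16 + f 32 + f 64 + f 128) :=
    mul_le_mul_of_nonneg_left (by linarith) hh
  have u2 : (0 : ℝ) ≤ h * (8 * f 255 - f 254 - f 253 - f 251 - f 247 - f 239 - f 223 - f 191 -
      f 127) := mul_nonneg hh (by linarith)
  linarith

end Pool.Agent.N410.Cut
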