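import Mathlib

/-!
# Monotonic sum-decompositions of set functions: definitions
-/

set_option autoImplicit false

namespace Pool.Agent.N410.Cut

/-- `φ` is submodular. -/
def Submodular {V : Type} [DecidableEq V] (φ : Finset V → ℝ) : Prop :=
  ∀ X Y : Finset V, φ (X ∩ Y) + φ (X ∪ Y) ≤ φ X + φ Y

/-- `φ = φ₁ + φ₂` is a monotonic sum-decomposition: `φ₁` is increasing and submodular, `φ₂` is
decreasing and submodular, and both vanish at the empty set. -/
def IsDecomposition {V : Type} [DecidableEq V] (φ φ₁ φ₂ : Finset V → ℝ) : Prop :=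
  (∀ X, φ X = φ₁ X + φ₂ X) ∧ (∀ X Y, X ⊆ Y → φ₁ X ≤ φ₁ Y) ∧ Submodular φ₁ ∧
    (∀ X Y, X ⊆ Y → φ₂ Y ≤ φ₂ X) ∧ Submodular φ₂ ∧ φ₁ ∅ = 0 ∧ φ₂ ∅ = 0

/-- The values `φ₁(V)` over all monotonic sum-decompositions `φ = φ₁ + φ₂`. -/
def decompositionValues {V : Type} [Fintype V] [DecidableEq V] (φ : Finset V → ℝ) : Set ℝ :=
  {t | ∃ φ₁ φ₂ : Finset V → ℝ, IsDecomposition φ φ₁ φ₂ ∧ φ₁ Finset.univ = t}

/-- `‖φ‖₊`, the smallest value `φ₁(V)` of a monotonic sum-decomposition. -/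
noncomputable def plusNorm {V : Type} [Fintype V] [DecidableEq V] (φ : Finset V → ℝ) : ℝ :=
  sInf (decompositionValues φ)

open Classical in
/-- The weighted cut function `d_{G,w}`: the sum of the weights of the edges of `G` with exactly one
end in `X`. -/
noncomputable def cutFunction {V : Type} [Fintype V] [DecidableEq V] (G : SimpleGraph V)
    (w : Sym2 V → ℝ) (X : Finset V) : ℝ :=
  ∑ u ∈ X, ∑ v ∈ Xᶜ, if G.Adj u v then w s(u, v) else 0

end Pool.Agent.N410.Cut
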