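import Mathlib

/-!
# Maximum forcing number and number of edges: greedy argument

`G` is a graph, `μ` the partner involution of a perfect matching of `G`, `A` a set of vertices that
contains exactly one end of each matching edge.
-/

set_option autoImplicit false

namespace Pool.Agent.N410.Forcing

open Finset

set_option linter.unusedSectionVars false

variable {V : Type} [Fintype V] [DecidableEq V]

/-- Digraph version of the Caro-Wei bound (greedy): `N a` is the set of out-neighbours of `a`.
There is an acyclic subset, described by an inductively closed predicate. -/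
theorem greedy (N : V → Finset V) (Good : Finset V → Prop) (h0 : Good ∅)
    (hstep : ∀ T a, Good T → a ∉ T → Disjoint (N a) T → Good (insert a T))
    (hself : ∀ a, a ∉ N a) :
    ∀ (k : ℕ) (A : Finset V), A.card = k →
      ∃ T ⊆ A, Good T ∧ ∑ a ∈ A, (1 : ℝ) / (1 + ((N a ∩ A).card : ℝ)) ≤ T.card := by
  intro k
  induction k using Nat.strong_induction_on with
  | _ k ih =>
    intro A hA
    rcases A.eq_empty_or_nonempty with rfl | hne
    · exact ⟨∅, Subset.refl _, h0, by simp⟩
    · obtain ⟨a, haA, hmin⟩ := exists_min_image A (fun a => (N a ∩ A).card) hne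
      set D : Finset V := insert a (N a ∩ A) with hD
      have hDA : D ⊆ A := by
        intro x hx
        rw [hD, mem_insert] at hx
        rcases hx with rfl | hx
        · exact haA
        · exact (mem_inter.1 hx).2
      have haD : a ∈ D := mem_insert_self _ _
      set B : Finset V := A \ D with hB
      have hBlt : B.card < k := by
        rw [← hA]
        apply card_lt_card
        refine ⟨sdiff_subset, fun h => ?_⟩
        exact (mem_sdiff.1 (h haA)).2 haD
      obtain ⟨T, hTB, hT, hsum⟩ := ih B.card hBlt B rfl
      have haT : a ∉ T := fun h => (mem_sdiff.1 (hTB h)).2 haD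
      have hdis : Disjoint (N a) T := by
        rw [disjoint_left]
        intro x hx hxT
        have h1 := mem_sdiff.1 (hTB hxT)
        exact h1.2 (mem_insert_of_mem (mem_inter.2 ⟨hx, h1.1⟩))
      refine ⟨insert a T, ?_, hstep T a hT haT hdis, ?_⟩
      · intro x hx
        rcases mem_insert.1 hx with rfl | hx
        · exact haA
        · exact (mem_sdiff.1 (hTB hx)).1
      · rw [card_insert_of_notMem haT]
        have hcardD : D.card = (N a ∩ A).card + 1 := by
          rw [hD, card_insert_of_notMem (fun h => hself a (mem_inter.1 h).1)]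
        have h1 : ∑ x ∈ D, (1 : ℝ) / (1 + ((N x ∩ A).card : ℝ)) ≤ 1 := by
          calc ∑ x ∈ D, (1 : ℝ) / (1 + ((N x ∩ A).card : ℝ))
              ≤ ∑ x ∈ D, (1 : ℝ) / (1 + ((N a ∩ A).card : ℝ)) := by
                apply sum_le_sum
                intro x hx
                apply one_div_le_one_div_of_le (by positivity)
                have := hmin x (hDA hx)
                have h2 : ((N a ∩ A).card : ℝ) ≤ ((N x ∩ A).card : ℝ) := by exact_mod_cast this
                linarith
            _ = 1 := by
                rw [sum_const, nsmul_eq_mul, hcardD]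
                push_cast
                have h9 : (1 : ℝ) + ((N a ∩ A).card : ℝ) ≠ 0 := by positivity
                rw [add_comm ((N a ∩ A).card : ℝ) 1]
                field_simp
        have h2 : ∑ x ∈ B, (1 : ℝ) / (1 + ((N x ∩ A).card : ℝ)) ≤
            ∑ x ∈ B, (1 : ℝ) / (1 + ((N x ∩ B).card : ℝ)) := by
          apply sum_le_sum
          intro x _
          apply one_div_le_one_div_of_le (by positivity)
          have : (N x ∩ B).card ≤ (N x ∩ A).card :=
            card_le_card (inter_subset_inter_left sdiff_subset)
          have h2 : ((N x ∩ B).card : ℝ) ≤ ((N x ∩ A).card : ℝ) := by exact_mod_cast this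
          linarith
        have h3 : ∑ x ∈ A, (1 : ℝ) / (1 + ((N x ∩ A).card : ℝ)) =
            ∑ x ∈ B, (1 : ℝ) / (1 + ((N x ∩ A).card : ℝ)) +
            ∑ x ∈ D, (1 : ℝ) / (1 + ((N x ∩ A).card : ℝ)) := by
          rw [hB, sum_sdiff hDA]
        rw [h3]
        push_cast
        linarith

/-- A perfect matching of `G`, given by its partner function. -/
structure Partner (G : SimpleGraph V) (μ : V → V) : Prop where
  adj : ∀ v, G.Adj v (μ v)
  inv : ∀ v, μ (μ v) = v

variable (G : SimpleGraph V) [DecidableRel G.Adj]

omit [Fintype V] [DecidableEq V] in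
theorem Partner.ne {G : SimpleGraph V} {μ : V → V} (h : Partner G μ) (v : V) : μ v ≠ v :=
  fun e => (h.adj v).ne e.symm

/-- There is a set `A` with exactly one end of each matching edge, the one of smaller degree. -/
theorem exists_transversal {μ : V → V} (h : Partner G μ) :
    ∃ A : Finset V, (∀ v, (v ∈ A ↔ μ v ∉ A)) ∧ ∀ a ∈ A, G.degree a ≤ G.degree (μ a) := by
  classical
  -- order the vertices by (degree, index)
  let e : V ≃ Fin (Fintype.card V) := Fintype.equivFin V
  let key : V → ℕ × ℕ := fun v => (G.degree v, (e v).val)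
  refine ⟨univ.filter fun v => G.degree v < G.degree (μ v) ∨
    (G.degree v = G.degree (μ v) ∧ (e v).val < (e (μ v)).val), ?_, ?_⟩
  · intro v
    have hdd : ∀ w, w = v → G.degree w = G.degree v := by rintro w rfl; rfl
    have hd1 := hdd _ (h.inv v)
    have hd2 : (e (μ (μ v))).val = (e v).val := by rw [h.inv v]
    simp only [mem_filter, mem_univ, true_and]
    have hne : (e v).val ≠ (e (μ v)).val := fun h1 => h.ne v (e.injective (Fin.ext h1)).symm
    omega
  · intro a ha
    simp only [mem_filter, mem_univ, true_and] at ha
    omega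

/-- The main estimate: there is a set `T` of ends of matching edges, one for each edge, such that
`T` has at least `n ^ 2 / e(G)` elements and the matching edges not meeting `T` force `μ`. -/
theorem exists_forcing {μ : V → V} (h : Partner G μ) (n : ℕ) (hn : Fintype.card V = 2 * n)
    (hn1 : 1 ≤ n) :
    ∃ A T : Finset V, (∀ v, (v ∈ A ↔ μ v ∉ A)) ∧ T ⊆ A ∧ A.card = n ∧
      (∀ ν : V → V, Partner G ν → (∀ b ∈ A \ T, ν b = μ b) → ν = μ) ∧
      (n : ℝ) ^ 2 / (G.edgeFinset.card : ℝ) ≤ T.card := by
  classical
  obtain ⟨A, hA, hdeg⟩ := exists_transversal G h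
  have hcompl : (Aᶜ : Finset V) = A.image μ := by
    ext v
    rw [mem_compl, mem_image]
    constructor
    · intro hv
      refine ⟨μ v, ?_, h.inv v⟩
      by_contra h1
      exact hv ((hA v).2 h1)
    · rintro ⟨a, ha, rfl⟩
      exact (hA a).1 ha
  have hinj : Function.Injective μ := fun x y hxy => by rw [← h.inv x, hxy, h.inv y]
  have hAc : A.card = n := by
    have h1 : Aᶜ.card = A.card := by rw [hcompl, card_image_of_injective _ hinj]
    have h2 := card_compl_add_card A
    omega
  -- the degree sum
  have hsum : ∑ a ∈ A, G.degree a ≤ G.edgeFinset.card := by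
    have h1 : ∑ v, G.degree v = ∑ a ∈ A, G.degree a + ∑ a ∈ A, G.degree (μ a) := by
      rw [← sum_add_sum_compl A, hcompl, sum_image (fun x _ y _ hxy => hinj hxy)]
    have h2 := G.sum_degrees_eq_twice_card_edges
    have h3 : ∑ a ∈ A, G.degree a ≤ ∑ a ∈ A, G.degree (μ a) := sum_le_sum hdeg
    omega
  -- representatives
  let rep : V → V := fun v => if v ∈ A then v else μ v
  have hrepA : ∀ v, rep v ∈ A := by
    intro v
    by_cases hv : v ∈ A
    · simp [rep, hv]
    · simp only [rep, hv, if_false]
      by_contra h1
      exact hv ((hA v).2 h1)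
  let N : V → Finset V := fun a => ((G.neighborFinset a).erase (μ a)).image rep
  have hNcard : ∀ a, (N a).card + 1 ≤ G.degree a := by
    intro a
    have h1 : (N a).card ≤ ((G.neighborFinset a).erase (μ a)).card := card_image_le
    have h2 : μ a ∈ G.neighborFinset a := by
      rw [SimpleGraph.mem_neighborFinset]; exact h.adj a
    rw [card_erase_of_mem h2, SimpleGraph.card_neighborFinset_eq_degree] at h1
    have h3 : 0 < G.degree a := by
      rw [← SimpleGraph.card_neighborFinset_eq_degree]
      exact card_pos.2 ⟨_, h2⟩
    omega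
  let N' : V → Finset V := fun a => (N a).erase a
  have hself : ∀ a, a ∉ N' a := fun a => notMem_erase a _
  let Good : Finset V → Prop := fun T => T ⊆ A →
    ∀ ν : V → V, Partner G ν → (∀ b ∈ A \ T, ν b = μ b) → ν = μ
  have h0 : Good ∅ := by
    intro _ ν hν hb
    funext v
    by_cases hv : v ∈ A
    · exact hb v (by simpa using hv)
    · have h1 : μ v ∈ A := by
        by_contra h1
        exact hv ((hA v).2 h1)
      have h2 := hb (μ v) (by simpa using h1)
      rw [h.inv v] at h2
      have h3 := hν.inv (μ v)
      rw [h2] at h3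
      exact h3
  have hstep : ∀ T a, Good T → a ∉ T → Disjoint (N' a) T → Good (insert a T) := by
    intro T a hT haT hdis hsub ν hν hb
    have haA : a ∈ A := hsub (mem_insert_self _ _)
    have hTA : T ⊆ A := fun x hx => hsub (mem_insert_of_mem hx)
    apply hT hTA ν hν
    intro b hbm
    by_cases hba : b = a
    · subst hba
      -- the partner of `b` under `ν`
      by_contra hne
      set x := ν b with hx
      have hadj : G.Adj b x := hν.adj b
      have hxb : x ≠ b := hadj.ne.symm
      have hrx : rep x ∈ N b := by
        apply mem_image.2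
        refine ⟨x, mem_erase.2 ⟨hne, ?_⟩, rfl⟩
        rw [SimpleGraph.mem_neighborFinset]; exact hadj
      -- `rep x ≠ b`
      have hrxb : rep x ≠ b := by
        intro h1
        by_cases hxA : x ∈ A
        · have : rep x = x := by simp [rep, hxA]
          exact hxb (this.symm.trans h1)
        · have h2 : rep x = μ x := by simp [rep, hxA]
          rw [h2] at h1
          apply hne
          rw [← h1, h.inv x]
      have hrxN : rep x ∈ N' b := mem_erase.2 ⟨hrxb, hrx⟩
      have hrxT : rep x ∉ T := fun h1 => (disjoint_left.1 hdis) hrxN h1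
      -- so the matching edge of `x` is in `ν`
      have h2 : rep x ∈ A \ insert b T := by
        rw [mem_sdiff, mem_insert]
        exact ⟨hrepA x, fun h3 => h3.elim hrxb hrxT⟩
      have h3 := hb _ h2
      have h4 : ν x = b := hν.inv b
      by_cases hxA : x ∈ A
      · have h5 : rep x = x := by simp [rep, hxA]
        rw [h5, h4] at h3
        -- b = μ x with both in A: contradiction
        have := (hA x).1 hxA
        rw [← h3] at this
        exact this haA
      · have h5 : rep x = μ x := by simp [rep, hxA]
        rw [h5, h.inv x] at h3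
        -- ν (μ x) = x so ν x = μ x
        have h6 := hν.inv (μ x)
        rw [h3, h4] at h6
        exact hrxb (h5.trans h6.symm)
    · apply hb
      rw [mem_sdiff] at hbm ⊢
      refine ⟨hbm.1, fun h1 => ?_⟩
      rcases mem_insert.1 h1 with h1 | h1
      · exact hba h1
      · exact hbm.2 h1
  obtain ⟨T, hTA, hT, hcard⟩ := greedy N' Good h0 hstep hself A.card A rfl
  refine ⟨A, T, hA, hTA, hAc, hT hTA, le_trans ?_ hcard⟩
  -- Cauchy-Schwarz
  have hdpos : ∀ a ∈ A, (0 : ℝ) < G.degree a := by
    intro a _
    have := hNcard a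
    exact_mod_cast (by omega : 0 < G.degree a)
  have h1 : ∑ a ∈ A, (1 : ℝ) / (G.degree a : ℝ) ≤
      ∑ a ∈ A, (1 : ℝ) / (1 + ((N' a ∩ A).card : ℝ)) := by
    apply sum_le_sum
    intro a _
    have h0' : (0 : ℝ) < 1 + ((N' a ∩ A).card : ℝ) := by
      have h9 := Nat.cast_nonneg (α := ℝ) (N' a ∩ A).card
      linarith
    apply one_div_le_one_div_of_le h0'
    have h2 : (N' a ∩ A).card ≤ (N a).card :=
      (card_le_card inter_subset_left).trans (card_erase_le)
    have h3 := hNcard a
    have h4 : 1 + (N' a ∩ A).card ≤ G.degree a := by omega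
    exact_mod_cast h4
  refine le_trans ?_ h1
  have hCS := sq_sum_div_le_sum_sq_div (R := ℝ) A (fun _ => (1 : ℝ)) hdpos
  have hd : (∑ a ∈ A, (G.degree a : ℝ)) ≤ (G.edgeFinset.card : ℝ) := by exact_mod_cast hsum
  have hApos : 0 < A.card := by omega
  have hd0 : (0 : ℝ) < ∑ a ∈ A, (G.degree a : ℝ) := sum_pos hdpos (card_pos.1 hApos)
  have e1 : ∑ a ∈ A, (1 : ℝ) = n := by rw [sum_const, nsmul_eq_mul, mul_one, hAc]
  have e2 : ∑ a ∈ A, (1 : ℝ) ^ 2 / (G.degree a : ℝ) = ∑ a ∈ A, (1 : ℝ) / (G.degree a : ℝ) :=
    sum_congr rfl fun a _ => by rw [one_pow]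
  rw [e1, e2] at hCS
  refine le_trans ?_ hCS
  exact div_le_div_of_nonneg_left (sq_nonneg _) hd0 hd

end Pool.Agent.N410.Forcing
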